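import Mathlib
import Pool.Agent.H46.Oka.Defs
import Pool.Agent.H46.Oka.Main

set_option autoImplicit false

open scoped Manifold ContDiff

namespace Pool.Agent.Results.MP_23a81f_an.WeakNotOka1

open Pool.Agent.H46.Oka

/-- There is a connected complex manifold (of dimension two, with a complete distance) which is
weak Oka-1 but not Oka-1. -/
theorem result :
    ∃ (X : Type) (_ : MetricSpace X) (_ : CompleteSpace X) (_ : ConnectedSpace X)
      (_ : ChartedSpace (ℂ × ℂ) X) (_ : IsManifold 𝓘(ℂ, ℂ × ℂ) ω X),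
      WeakOka1 (ℂ × ℂ) X ∧ ¬ Oka1 (ℂ × ℂ) X :=
  exists_weak_not_oka

end Pool.Agent.Results.MP_23a81f_an.WeakNotOka1
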